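import Pool.Agent.Helper47.EN.Defs
import Pool.Agent.Helper13.RR.A

/-!
# Periodic places, push-forward of divisors
-/

set_option autoImplicit false
set_option linter.style.haveILetI false

namespace Pool.Agent.Helper47.EN

open Pool.Agent.Helper16 Pool.Agent.Helper45.S4 Pool.Agent.Helper47.RR IntermediateField Polynomial

variable {k L M : Type} [Field k] [Field L] [Field M] [Algebra k L] [Algebra k M]

/-- the degree is preserved by push-forward -/
theorem deg_push (F : Place k L → Place k M) (D : Dv k L) :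
    degD (Finsupp.mapDomain F D) = degD D := by
  unfold degD
  rw [Finsupp.sum_mapDomain_index]
  · intro _; rfl
  · intro _ _ _; rfl

theorem tw_tw_symm (γ : M ≃+* M) (γ₀ : k ≃+* k)
    (hγ : ∀ c : k, γ (algebraMap k M c) = algebraMap k M (γ₀ c))
    (hγ' : ∀ c : k, γ.symm (algebraMap k M c) = algebraMap k M (γ₀.symm c)) (w : Place k M) :
    tw γ γ₀ hγ (tw γ.symm γ₀.symm hγ' w) = w := by
  apply Place.ext_val
  ext x
  rw [tw_val, tw_val, RingEquiv.symm_apply_apply]

theorem hsymm (γ : M ≃+* M) (γ₀ : k ≃+* k)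
    (hγ : ∀ c : k, γ (algebraMap k M c) = algebraMap k M (γ₀ c)) :
    ∀ c : k, γ.symm (algebraMap k M c) = algebraMap k M (γ₀.symm c) := by
  intro c
  rw [RingEquiv.symm_apply_eq, hγ, RingEquiv.apply_symm_apply]

theorem tw_injective (γ : M ≃+* M) (γ₀ : k ≃+* k)
    (hγ : ∀ c : k, γ (algebraMap k M c) = algebraMap k M (γ₀ c)) :
    Function.Injective (tw γ γ₀ hγ) := by
  intro v w h
  apply Place.ext_val
  ext x
  have h1 : (tw γ γ₀ hγ v).val (γ.symm x) = (tw γ γ₀ hγ w).val (γ.symm x) := by rw [h]
  rw [tw_val, tw_val, RingEquiv.apply_symm_apply] at h1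
  exact h1

theorem tw_surjective (γ : M ≃+* M) (γ₀ : k ≃+* k)
    (hγ : ∀ c : k, γ (algebraMap k M c) = algebraMap k M (γ₀ c)) :
    Function.Surjective (tw γ γ₀ hγ) := fun w =>
  ⟨tw γ.symm γ₀.symm (hsymm γ γ₀ hγ) w, tw_tw_symm γ γ₀ hγ _ w⟩

theorem tw_prin (hM : IsFunctionField k M) (γ : M ≃+* M) (γ₀ : k ≃+* k)
    (hγ : ∀ c : k, γ (algebraMap k M c) = algebraMap k M (γ₀ c)) (f : M) :
    Finsupp.mapDomain (tw γ γ₀ hγ) (prin hM (γ f)) = prin hM f := by
  ext v
  obtain ⟨w, rfl⟩ := tw_surjective γ γ₀ hγ v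
  rw [Finsupp.mapDomain_apply (tw_injective γ γ₀ hγ), prin_apply, prin_apply, tw_ord]

theorem plc_pow (hM : IsFunctionField k M) (φ : M →ₐ[k] M) (n : ℕ) (w : Place k M) :
    plc hM hM (φ ^ n) w = (plc hM hM φ)^[n] w := by
  induction n with
  | zero => exact plc_id hM w
  | succ n ih =>
    rw [Function.iterate_succ', Function.comp_apply, ← ih]
    have h1 : φ ^ (n + 1) = (φ ^ n).comp φ := pow_succ φ n
    rw [h1]
    exact plc_comp hM hM hM φ (φ ^ n) w

theorem exists_iterate_eq {α : Type} (f : α → α) (S : Finset α) (hS : S.Nonempty)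
    (hf : ∀ x ∈ S, f x ∈ S) : ∃ i, 1 ≤ i ∧ i ≤ S.card ∧ ∃ x ∈ S, f^[i] x = x := by
  classical
  obtain ⟨x0, hx0⟩ := hS
  have hmem : ∀ j, f^[j] x0 ∈ S := by
    intro j
    induction j with
    | zero => exact hx0
    | succ j ih => rw [Function.iterate_succ', Function.comp_apply]; exact hf _ ih
  have hc : S.card < (Finset.range (S.card + 1)).card := by simp
  obtain ⟨a, ha, b, hb, hab, he⟩ := Finset.exists_ne_map_eq_of_card_lt_of_maps_to hc
    (f := fun j => f^[j] x0) (fun j _ => hmem j)
  wlog hlt : a < b generalizing a b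
  · exact this b hb a ha (Ne.symm hab) he.symm (by omega)
  simp only [Finset.mem_range] at ha hb
  refine ⟨b - a, by omega, by omega, f^[a] x0, hmem a, ?_⟩
  rw [← Function.iterate_add_apply, Nat.sub_add_cancel hlt.le]
  exact he.symm

/-- the places over a point of the line -/
theorem exists_zeros_card (hM : IsFunctionField k M) (f : M) (hf : Transcendental k f) :
    ∃ S : Finset (Place k M), S.Nonempty ∧ (∀ v, v ∈ S ↔ v.val f < 1) ∧
      S.card ≤ Module.finrank k⟮f⟯ M := by
  obtain ⟨S, h1, h2, h3⟩ := hM.zeros f hf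
  have hf0 : f ≠ 0 := by
    rintro rfl
    exact hf (isAlgebraic_zero)
  refine ⟨S, ?_, h1, ?_⟩
  · rw [Finset.nonempty_iff_ne_empty]
    rintro rfl
    rw [Finset.sum_empty] at h2
    have : (0 : ℤ) < (Module.finrank k⟮f⟯ M : ℤ) := by exact_mod_cast h3
    omega
  · have h4 : ∀ v ∈ S, (1 : ℤ) ≤ v.ord f * (v.deg : ℤ) := by
      intro v hv
      have h5 : 0 < v.ord f := (v.ord_pos_iff hf0).2 ((h1 v).1 hv)
      have h6 : 0 < v.deg := v.deg_pos hM
      have h7 : (0 : ℤ) < (v.deg : ℤ) := by exact_mod_cast h6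
      have := mul_pos h5 h7
      omega
    have h5 := Finset.sum_le_sum h4
    rw [Finset.sum_const, h2] at h5
    simp only [nsmul_eq_mul, mul_one] at h5
    exact_mod_cast h5

theorem transcendental_sub_c (h : M) (hh : Transcendental k h) (c : k) :
    Transcendental k (h - algebraMap k M c) := by
  intro hcon
  apply hh
  have := hcon.add (isAlgebraic_algebraMap (R := k) (A := M) c)
  simpa using this

theorem adjoin_sub_c (h : M) (c : k) : k⟮h - algebraMap k M c⟯ = k⟮h⟯ := by
  apply le_antisymm
  · rw [adjoin_simple_le_iff]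
    exact sub_mem (mem_adjoin_simple_self k h) (IntermediateField.algebraMap_mem _ c)
  · rw [adjoin_simple_le_iff]
    have h1 := add_mem (mem_adjoin_simple_self k (h - algebraMap k M c))
      (IntermediateField.algebraMap_mem (k⟮h - algebraMap k M c⟯) c)
    simpa using h1

theorem adjoin_inv' (h : M) : k⟮h⁻¹⟯ = k⟮h⟯ := by
  apply le_antisymm
  · rw [adjoin_simple_le_iff]
    exact inv_mem (mem_adjoin_simple_self k h)
  · rw [adjoin_simple_le_iff]
    have h1 := inv_mem (mem_adjoin_simple_self k h⁻¹)
    simpa using h1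

/-- the value of a polynomial at a place -/
theorem val_aeval_sub (w : Place k M) (h : M) (c : k) (hc : w.val (h - algebraMap k M c) < 1)
    (p : k[X]) : w.val (aeval h p - algebraMap k M (p.eval c)) < 1 := by
  obtain ⟨q, hq⟩ := X_sub_C_dvd_sub_C_eval (a := c) (p := p)
  have h1 : aeval h p - algebraMap k M (p.eval c) = (h - algebraMap k M c) * aeval h q := by
    have h2 := congrArg (aeval h) hq
    simpa using h2
  have hle : w.val h ≤ 1 := by
    have h3 : h = (h - algebraMap k M c) + algebraMap k M c := by ring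
    rw [h3]
    exact (w.val.map_add _ _).trans (max_le hc.le (w.val_algebraMap_le c))
  have hq' : w.val (aeval h q) ≤ 1 := by
    have : aeval h q ∈ w.ring := by
      have h4 : h ∈ w.ring := hle
      have := (aeval (⟨h, h4⟩ : w.ring) q).2
      have h5 : ((aeval (⟨h, h4⟩ : w.ring) q : w.ring) : M) = aeval h q := by
        have := (aeval_algHom_apply (w.ring.val) (⟨h, h4⟩ : w.ring) q)
        exact this.symm
      rw [← h5]
      exact this
    exact this
  rw [h1, map_mul]
  calc w.val (h - algebraMap k M c) * w.val (aeval h q) ≤ w.val (h - algebraMap k M c) * 1 :=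
        mul_le_mul_right hq' _
    _ < 1 := by rwa [mul_one]

theorem val_aeval_eq_one (w : Place k M) (h : M) (c : k) (hc : w.val (h - algebraMap k M c) < 1)
    (p : k[X]) (hp : p.eval c ≠ 0) : w.val (aeval h p) = 1 := by
  have h1 := val_aeval_sub w h c hc p
  have h2 := w.triv _ hp
  have h3 : aeval h p = (aeval h p - algebraMap k M (p.eval c)) + algebraMap k M (p.eval c) := by
    ring
  rw [h3, Valuation.map_add_eq_of_lt_right (h := by rw [h2]; exact h1), h2]

/-- the value of a polynomial at a pole -/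
theorem val_aeval_pole (w : Place k M) (h : M) (hw : 1 < w.val h) (p : k[X]) (hp : p ≠ 0) :
    w.val (aeval h p) = w.val h ^ p.natDegree := by
  have key : ∀ n : ℕ, ∀ p : k[X], p.natDegree = n → p ≠ 0 →
      w.val (aeval h p) = w.val h ^ p.natDegree := by
    intro n
    induction n using Nat.strong_induction_on with
    | _ n ih =>
      intro p hpn hp
      by_cases hn : n = 0
      · rw [hpn, hn, pow_zero]
        rw [hn] at hpn
        obtain ⟨a, rfl⟩ : ∃ a, p = C a := ⟨_, eq_C_of_natDegree_eq_zero hpn⟩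
        rw [aeval_C]
        exact w.triv _ (by simpa using hp)
      · have h1 := p.eraseLead_add_C_mul_X_pow
        have hlc : w.val (aeval h (C p.leadingCoeff * X ^ p.natDegree)) = w.val h ^ p.natDegree := by
          rw [map_mul, aeval_C, map_mul, w.triv _ (leadingCoeff_ne_zero.2 hp), one_mul, map_pow,
            aeval_X, map_pow]
        conv_lhs => rw [← h1, map_add]
        by_cases he : p.eraseLead = 0
        · rw [he, map_zero, zero_add, hlc]
        · have h2 : p.eraseLead.natDegree < n := by
            have := eraseLead_natDegree_lt_or_eraseLead_eq_zero p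
            rcases this with h | h
            · omega
            · exact absurd h he
          have h3 := ih _ h2 p.eraseLead rfl he
          rw [Valuation.map_add_eq_of_lt_right, hlc]
          rw [h3, hlc]
          exact pow_lt_pow_right₀ hw (by omega)
  exact key _ p rfl hp

/-- a stable finite set of places -/
theorem exists_stable [IsAlgClosed k] (hM : IsFunctionField k M) (φ : M →ₐ[k] M) (h : M)
    (hh : Transcendental k h) (hφ : φ h ∈ k⟮h⟯) :
    ∃ S : Finset (Place k M), S.Nonempty ∧ S.card ≤ Module.finrank k⟮h⟯ M ∧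
      ∀ w ∈ S, plc hM hM φ w ∈ S := by
  classical
  have hh0 : h ≠ 0 := by
    rintro rfl
    exact hh isAlgebraic_zero
  obtain ⟨r, s, hrs⟩ := (mem_adjoin_simple_iff k _).1 hφ
  have hs0 : s ≠ 0 := by
    rintro rfl
    rw [map_zero, div_zero] at hrs
    exact hh0 (by simpa using hrs)
  -- coprime representation
  obtain ⟨p, q, hq0, hpq, hval⟩ : ∃ p q : k[X], q ≠ 0 ∧ IsCoprime p q ∧
      φ h * aeval h q = aeval h p := by
    set g := gcd r s with hg
    obtain ⟨p, hp⟩ : g ∣ r := gcd_dvd_left r s
    obtain ⟨q, hq⟩ : g ∣ s := gcd_dvd_right r s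
    have hg0 : g ≠ 0 := by
      rintro h0
      rw [h0, zero_mul] at hq
      exact hs0 hq
    refine ⟨p, q, ?_, ?_, ?_⟩
    · rintro rfl
      rw [mul_zero] at hq
      exact hs0 hq
    · have h1 : g * gcd p q = g * 1 := by
        rw [mul_one]
        have h2 := gcd_mul_left g p q
        rw [← hp, ← hq, ← hg] at h2
        have h3 : normalize g = g := by rw [hg]; exact normalize_gcd r s
        rw [h3] at h2
        exact h2.symm
      have h2 : gcd p q = 1 := mul_left_cancel₀ hg0 h1
      exact (gcd_isUnit_iff p q).1 (by rw [h2]; exact isUnit_one)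
    · have hgh : aeval h g ≠ 0 := by
        intro h0
        exact hg0 (by
          by_contra hne
          exact hh ⟨g, hne, h0⟩)
      have hqh : aeval h q ≠ 0 := by
        intro h0
        refine hh ⟨q, ?_, h0⟩
        rintro rfl
        rw [mul_zero] at hq
        exact hs0 hq
      rw [hrs, hp, hq, map_mul, map_mul]
      field_simp
  by_cases hroot : ∃ c : k, (p - X * q).eval c = 0
  · obtain ⟨c, hc⟩ := hroot
    have hqc : q.eval c ≠ 0 := by
      intro h0
      rw [eval_sub, eval_mul, eval_X, h0, mul_zero, sub_zero] at hc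
      obtain ⟨a, b, hab⟩ := hpq
      have h1 := congrArg (eval c) hab
      rw [eval_add, eval_mul, eval_mul, hc, h0, mul_zero, mul_zero, add_zero, eval_one] at h1
      exact zero_ne_one h1
    obtain ⟨S, hSne, hS, hcard⟩ := exists_zeros_card hM (h - algebraMap k M c)
      (transcendental_sub_c h hh c)
    refine ⟨S, hSne, by rwa [adjoin_sub_c] at hcard, ?_⟩
    intro w hw
    rw [hS] at hw ⊢
    rw [plc_val_lt_one, map_sub, AlgHom.commutes]
    have h1 : (φ h - algebraMap k M c) * aeval h q = aeval h (p - C c * q) := by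
      rw [sub_mul, hval, map_sub, map_mul, aeval_C]
    have h2 : (p - C c * q).eval c = 0 := by
      rw [eval_sub, eval_mul, eval_X] at hc
      rw [eval_sub, eval_mul, eval_C]
      exact hc
    have h3 := val_aeval_sub w h c hw (p - C c * q)
    rw [h2, map_zero, sub_zero, ← h1, map_mul, val_aeval_eq_one w h c hw q hqc, mul_one] at h3
    exact h3
  · -- the point at infinity is fixed
    push Not at hroot
    have hdeg : (p - X * q).degree = 0 := by
      by_contra hd
      obtain ⟨c, hc⟩ := IsAlgClosed.exists_root (p - X * q) hd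
      exact hroot c hc
    have hpole := exists_zeros_card hM h⁻¹ (by
      intro hcon
      exact hh (by simpa using hcon.inv))
    obtain ⟨S, hSne, hS, hcard⟩ := hpole
    rw [adjoin_inv'] at hcard
    refine ⟨S, hSne, hcard, ?_⟩
    intro w hw
    rw [hS] at hw ⊢
    rw [plc_val_lt_one, map_inv₀, map_inv₀]
    rw [map_inv₀] at hw
    have hwh0 : w.val h ≠ 0 := (Valuation.ne_zero_iff _).2 hh0
    have hw' : 1 < w.val h := by
      rcases lt_or_ge 1 (w.val h) with h1 | h1
      · exact h1
      · exfalso
        exact absurd hw (not_lt.2 (by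
          rw [one_le_inv₀ (zero_lt_iff.2 hwh0)]
          exact h1))
    have hp0 : p ≠ 0 := by
      rintro rfl
      rw [map_zero] at hval
      rcases mul_eq_zero.1 hval with h1 | h1
      · exact hh0 (by simpa using h1)
      · exact hh ⟨q, hq0, h1⟩
    have hpd : p.natDegree = q.natDegree + 1 := by
      have h1 : p = (p - X * q) + X * q := by ring
      have h2 : (X * q).degree = ((q.natDegree + 1 : ℕ) : WithBot ℕ) := by
        rw [degree_mul, degree_X, degree_eq_natDegree hq0]
        push_cast
        ring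
      have h3 : p.degree = ((q.natDegree + 1 : ℕ) : WithBot ℕ) := by
        rw [h1, degree_add_eq_right_of_degree_lt, h2]
        rw [hdeg, h2]
        exact_mod_cast Nat.succ_pos _
      exact natDegree_eq_of_degree_eq_some h3
    have h1 := congrArg w.val hval
    rw [map_mul, val_aeval_pole w h hw' p hp0, val_aeval_pole w h hw' q hq0, hpd, pow_succ,
      mul_comm (w.val h ^ q.natDegree)] at h1
    have h2 : w.val (φ h) = w.val h :=
      mul_right_cancel₀ (pow_ne_zero _ hwh0) h1
    rw [h2]
    exact hw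

/-- a periodic place -/
theorem exists_periodic [IsAlgClosed k] (hM : IsFunctionField k M) (φ : M →ₐ[k] M) (h : M)
    (hh : Transcendental k h) (hφ : φ h ∈ k⟮h⟯) :
    ∃ i, 1 ≤ i ∧ i ≤ Module.finrank k⟮h⟯ M ∧ ∃ O, plc hM hM (φ ^ i) O = O := by
  obtain ⟨S, hne, hcard, hst⟩ := exists_stable hM φ h hh hφ
  obtain ⟨i, hi1, hi2, x, -, hx⟩ := exists_iterate_eq (plc hM hM φ) S hne hst
  exact ⟨i, hi1, hi2.trans hcard, x, by rw [plc_pow, hx]⟩

end Pool.Agent.Helper47.EN
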